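import Mathlib
import Pool.Agent.R572.GF.Digraph

/-!
# A dense pair of grammatical families of finite grammar forms
-/

set_option autoImplicit false

namespace Pool.Agent.Results.MP_71ec98_lc.DensePair

open Pool.Agent.R572.GF

/-- A grammar form: a context-free grammar with the total alphabet `V`, the terminals `T`, the
productions `P` and the start symbol `S`; the symbols are taken from the supply `ℕ`. -/
structure Form where
  V : Finset ℕ
  T : Finset ℕ
  P : Finset (ℕ × List ℕ)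
  S : ℕ
  hT : T ⊆ V
  hS : S ∈ V \ T
  hP : ∀ p ∈ P, p.1 ∈ V \ T ∧ ∀ b ∈ p.2, b ∈ V

/-- one derivation step with the productions `P` -/
def Step (P : Finset (ℕ × List ℕ)) (u v : List ℕ) : Prop :=
  ∃ p ∈ P, ∃ u₁ u₂, u = u₁ ++ p.1 :: u₂ ∧ v = u₁ ++ p.2 ++ u₂

/-- the generated language -/
def Form.lang (G : Form) : Set (List ℕ) :=
  {w | Relation.ReflTransGen (Step G.P) [G.S] w ∧ ∀ b ∈ w, b ∈ G.T}

/-- `G'` is an interpretation of `G` modulo the dfl-substitution `μ`. -/
structure IsInterp (G G' : Form) (μ : ℕ → Finset ℕ) : Prop where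
  dfl : ∀ a ∈ G.V, ∀ b ∈ G.V, a ≠ b → Disjoint (μ a) (μ b)
  nonterminals : ∀ A ∈ G.V \ G.T, μ A ⊆ G'.V \ G'.T
  terminals : ∀ a ∈ G.T, μ a ⊆ G'.T
  productions : ∀ p' ∈ G'.P, ∃ p ∈ G.P, p'.1 ∈ μ p.1 ∧
    List.Forall₂ (fun b a => b ∈ μ a) p'.2 p.2
  start : G'.S ∈ μ G.S

/-- The family `𝓛(G)`, modulo the empty word: the languages of the interpretations of `G`, without
the empty word. -/
def family (G : Form) : Set (Set (List ℕ)) :=
  {L | ∃ G' μ, IsInterp G G' μ ∧ L = G'.lang \ {[]}}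

/-- grammatical families (modulo the empty word) -/
def Grammatical (F : Set (Set (List ℕ))) : Prop := ∃ G, F = family G

/-- the pair `(F, F')` is dense -/
def Dense (F F' : Set (Set (List ℕ))) : Prop :=
  ∀ F₁ F₂, Grammatical F₁ → Grammatical F₂ → F ⊆ F₁ → F₁ ⊂ F₂ → F₂ ⊆ F' →
    ∃ F₃, Grammatical F₃ ∧ F₁ ⊂ F₃ ∧ F₃ ⊂ F₂

/-! ### Derivations as trees -/

/-- the terminal word `w` is derived from `u` -/
inductive DY (P : Finset (ℕ × List ℕ)) (T : Finset ℕ) : List ℕ → List ℕ → Prop
  | nil : DY P T [] []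
  | term {a : ℕ} {l w : List ℕ} (ha : a ∈ T) (h : DY P T l w) : DY P T (a :: l) (a :: w)
  | nt {p : ℕ × List ℕ} {l w₁ w₂ : List ℕ} (hp : p ∈ P) (h₁ : DY P T p.2 w₁) (h₂ : DY P T l w₂) :
      DY P T (p.1 :: l) (w₁ ++ w₂)

theorem DY.append {P : Finset (ℕ × List ℕ)} {T : Finset ℕ} {u v w x : List ℕ} (h : DY P T u w)
    (h' : DY P T v x) : DY P T (u ++ v) (w ++ x) := by
  induction h with
  | nil => exact h'
  | term ha _ ih => exact .term ha ih
  | nt hp h1 _ _ ih2 =>
    rw [List.append_assoc]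
    exact .nt hp h1 ih2

theorem DY.split {P : Finset (ℕ × List ℕ)} {T : Finset ℕ} {u w : List ℕ} (h : DY P T u w) :
    ∀ u₁ u₂, u = u₁ ++ u₂ → ∃ w₁ w₂, w = w₁ ++ w₂ ∧ DY P T u₁ w₁ ∧ DY P T u₂ w₂ := by
  induction h with
  | nil =>
    intro u1 u2 h
    obtain ⟨rfl, rfl⟩ := List.append_eq_nil_iff.1 h.symm
    exact ⟨[], [], rfl, .nil, .nil⟩
  | @term a l w ha h ih =>
    intro u1 u2 hu
    rcases u1 with _ | ⟨b, u1⟩
    · rw [List.nil_append] at hu
      subst hu
      exact ⟨[], _, rfl, .nil, .term ha h⟩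
    · simp only [List.cons_append, List.cons.injEq] at hu
      obtain ⟨rfl, rfl⟩ := hu
      obtain ⟨w1, w2, rfl, h1, h2⟩ := ih u1 u2 rfl
      exact ⟨a :: w1, w2, rfl, .term ha h1, h2⟩
  | @nt p l w1 w2 hp h1 h2 _ ih2 =>
    intro u1 u2 hu
    rcases u1 with _ | ⟨b, u1⟩
    · rw [List.nil_append] at hu
      subst hu
      exact ⟨[], _, rfl, .nil, .nt hp h1 h2⟩
    · simp only [List.cons_append, List.cons.injEq] at hu
      obtain ⟨rfl, rfl⟩ := hu
      obtain ⟨w3, w4, rfl, h3, h4⟩ := ih2 u1 u2 rfl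
      exact ⟨w1 ++ w3, w4, by simp, .nt hp h1 h3, h4⟩

theorem DY.of_terminals {P : Finset (ℕ × List ℕ)} {T : Finset ℕ} {w : List ℕ}
    (h : ∀ b ∈ w, b ∈ T) : DY P T w w := by
  induction w with
  | nil => exact .nil
  | cons a w ih => exact .term (h a (by simp)) (ih fun b hb => h b (by simp [hb]))

theorem DY.of_step {P : Finset (ℕ × List ℕ)} {T : Finset ℕ} {u v w : List ℕ}
    (h : Step P u v) (h' : DY P T v w) : DY P T u w := by
  obtain ⟨p, hp, u1, u2, rfl, rfl⟩ := h
  obtain ⟨w1, w2, rfl, h1, h2⟩ := h'.split _ _ rfl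
  obtain ⟨w3, w4, rfl, h3, h4⟩ := h1.split _ _ rfl
  rw [List.append_assoc]
  exact h3.append (.nt hp h4 h2)

theorem DY.steps {P : Finset (ℕ × List ℕ)} {T : Finset ℕ} {u w : List ℕ}
    (h : DY P T u w) : Relation.ReflTransGen (Step P) u w ∧ ∀ b ∈ w, b ∈ T := by
  have hl : ∀ {a : ℕ} {x y : List ℕ}, Relation.ReflTransGen (Step P) x y →
      Relation.ReflTransGen (Step P) (a :: x) (a :: y) := by
    intro a x y h
    induction h with
    | refl => exact .refl
    | tail _ hs ih =>
      obtain ⟨p, hp, u1, u2, h1, h2⟩ := hs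
      exact ih.tail ⟨p, hp, a :: u1, u2, by rw [h1]; rfl, by rw [h2]; rfl⟩
  have hr : ∀ {x y z : List ℕ}, Relation.ReflTransGen (Step P) x y →
      Relation.ReflTransGen (Step P) (x ++ z) (y ++ z) := by
    intro x y z h
    induction h with
    | refl => exact .refl
    | tail _ hs ih =>
      obtain ⟨p, hp, u1, u2, h1, h2⟩ := hs
      exact ih.tail ⟨p, hp, u1, u2 ++ z, by rw [h1]; simp, by rw [h2]; simp⟩
  have hl' : ∀ {z x y : List ℕ}, Relation.ReflTransGen (Step P) x y →
      Relation.ReflTransGen (Step P) (z ++ x) (z ++ y) := by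
    intro z x y h
    induction z with
    | nil => exact h
    | cons a z ih => exact hl ih
  induction h with
  | nil => exact ⟨.refl, by simp⟩
  | @term a l w ha _ ih =>
    refine ⟨hl ih.1, ?_⟩
    intro b hb
    rcases List.mem_cons.1 hb with rfl | hb
    · exact ha
    · exact ih.2 b hb
  | @nt p l w1 w2 hp _ _ ih1 ih2 =>
    refine ⟨?_, ?_⟩
    · have h1 : Relation.ReflTransGen (Step P) (p.1 :: l) (p.2 ++ l) :=
        .single ⟨p, hp, [], l, rfl, rfl⟩
      exact h1.trans ((hr ih1.1).trans (hl' ih2.1))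
    · intro b hb
      rcases List.mem_append.1 hb with hb | hb
      · exact ih1.2 b hb
      · exact ih2.2 b hb

theorem mem_lang {G : Form} {w : List ℕ} : w ∈ G.lang ↔ DY G.P G.T [G.S] w := by
  constructor
  · rintro ⟨h1, h2⟩
    have h3 : ∀ u, Relation.ReflTransGen (Step G.P) u w → DY G.P G.T u w := by
      intro u h
      induction h using Relation.ReflTransGen.head_induction_on with
      | refl => exact .of_terminals h2
      | head hs _ ih => exact .of_step hs ih
    exact h3 _ h1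
  · exact fun h => h.steps

theorem DY.mono {P P' : Finset (ℕ × List ℕ)} {T : Finset ℕ} (hP : P ⊆ P') {u w : List ℕ}
    (h : DY P T u w) : DY P' T u w := by
  induction h with
  | nil => exact .nil
  | term ha _ ih => exact .term ha ih
  | nt hp _ _ ih1 ih2 => exact .nt (hP hp) ih1 ih2

/-! ### Interpretations map derivations to derivations -/

theorem IsInterp.dy {G G' : Form} {μ : ℕ → Finset ℕ} (hi : IsInterp G G' μ) {u' w' : List ℕ}
    (h : DY G'.P G'.T u' w') : ∀ u, List.Forall₂ (fun b a => b ∈ μ a) u' u → (∀ a ∈ u, a ∈ G.V) →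
      ∃ w, DY G.P G.T u w ∧ List.Forall₂ (fun b a => b ∈ μ a) w' w := by
  induction h with
  | nil =>
    intro u hu _
    cases hu
    exact ⟨[], .nil, .nil⟩
  | @term b l w hb _ ih =>
    intro u hu hV
    cases hu with
    | @cons _ a _ u hba hu =>
      obtain ⟨w1, h1, h2⟩ := ih u hu fun a ha => hV a (by simp [ha])
      have ha : a ∈ G.T := by
        by_contra hcon
        have h3 := hi.nonterminals a (Finset.mem_sdiff.2 ⟨hV a (by simp), hcon⟩) hba
        exact (Finset.mem_sdiff.1 h3).2 hb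
      exact ⟨a :: w1, .term ha h1, .cons hba h2⟩
  | @nt p' l w1 w2 hp' _ _ ih1 ih2 =>
    intro u hu hV
    cases hu with
    | @cons _ a _ u hba hu =>
      obtain ⟨p, hp, h3, h4⟩ := hi.productions p' hp'
      have ha : a = p.1 := by
        by_contra hne
        have h5 := hi.dfl a (hV a (by simp)) p.1 (Finset.mem_sdiff.1 (G.hP p hp).1).1 hne
        exact Finset.disjoint_left.1 h5 hba h3
      subst ha
      obtain ⟨v1, h5, h6⟩ := ih1 p.2 h4 (G.hP p hp).2
      obtain ⟨v2, h7, h8⟩ := ih2 u hu fun a ha => hV a (by simp [ha])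
      exact ⟨v1 ++ v2, .nt hp h5 h7, List.rel_append h6 h8⟩

theorem IsInterp.mem {G G' : Form} {μ : ℕ → Finset ℕ} (hi : IsInterp G G' μ) {w' : List ℕ}
    (h : w' ∈ G'.lang) : ∃ w ∈ G.lang, List.Forall₂ (fun b a => b ∈ μ a) w' w := by
  obtain ⟨w, h1, h2⟩ := hi.dy (mem_lang.1 h) [G.S] (.cons hi.start .nil) (by
    intro a ha
    rw [List.mem_singleton.1 ha]
    exact (Finset.mem_sdiff.1 G.hS).1)
  exact ⟨w, mem_lang.2 h1, h2⟩

theorem hom_of_mem {G : Form} {L : Set (List ℕ)} (h : L ∈ family G) : Hom L (G.lang \ {[]}) := by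
  classical
  obtain ⟨G', μ, hi, rfl⟩ := h
  refine ⟨fun b => if hb : ∃ a ∈ G.T, b ∈ μ a then hb.choose else 0, fun w' hw' => ?_⟩
  obtain ⟨w, hw, hF⟩ := hi.mem hw'.1
  have h1 : ∀ {u' u : List ℕ}, List.Forall₂ (fun b a => b ∈ μ a) u' u → (∀ a ∈ u, a ∈ G.T) →
      u'.map (fun b => if hb : ∃ a ∈ G.T, b ∈ μ a then hb.choose else 0) = u := by
    intro u' u hF
    induction hF with
    | nil => intro _; rfl
    | @cons b a l' l hba _ ih =>
      intro hT
      rw [List.map_cons, ih fun a ha => hT a (by simp [ha])]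
      congr 1
      have ha : a ∈ G.T := hT a (by simp)
      have hb : ∃ a ∈ G.T, b ∈ μ a := ⟨a, ha, hba⟩
      rw [dif_pos hb]
      by_contra hne
      have h2 := hi.dfl _ (G.hT hb.choose_spec.1) a (G.hT ha) hne
      exact Finset.disjoint_left.1 h2 hb.choose_spec.2 hba
  rw [h1 hF hw.2]
  refine ⟨hw, ?_⟩
  rintro h2
  rw [Set.mem_singleton_iff.1 h2] at hF
  cases hF
  exact hw'.2 rfl

theorem finite_of_mem {G : Form} {L : Set (List ℕ)} (h : L ∈ family G) (hG : G.lang.Finite) :
    L.Finite := by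
  obtain ⟨G', μ, hi, rfl⟩ := h
  have h1 : ∀ w : List ℕ, {w' | List.Forall₂ (fun b a => b ∈ μ a) w' w}.Finite := by
    intro w
    induction w with
    | nil =>
      refine (Set.finite_singleton []).subset ?_
      intro w' hw'
      cases hw'
      rfl
    | cons a w ih =>
      refine (Set.Finite.image2 List.cons (μ a).finite_toSet ih).subset ?_
      intro w' hw'
      cases hw' with
      | cons h1 h2 => exact ⟨_, h1, _, h2, rfl⟩
  refine (hG.biUnion fun w _ => h1 w).subset ?_
  intro w' hw'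
  obtain ⟨w, hw, hF⟩ := hi.mem hw'.1
  exact Set.mem_biUnion hw hF

theorem self_mem (G : Form) : G.lang \ {[]} ∈ family G := by
  refine ⟨G, fun a => {a}, ⟨?_, ?_, ?_, ?_, ?_⟩, rfl⟩
  · intro a _ b _ hab
    simpa using hab
  · intro A hA
    simpa using hA
  · intro a ha
    simpa using ha
  · intro p hp
    refine ⟨p, hp, by simp, ?_⟩
    simp
  · simp

/-! ### Completeness: every finite language that maps to the language belongs to the family -/

/-- copies of the nonterminal `a` -/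
def nt (M a i : ℕ) : ℕ := M + Nat.pair a i

theorem nt_inj {M a b i j : ℕ} (h : nt M a i = nt M b j) : a = b ∧ i = j := by
  unfold nt at h
  exact Nat.pair_eq_pair.1 (by omega)

/-- `b` stands for `a` -/
def Rel (G : Form) (φ : ℕ → ℕ) (T' : Finset ℕ) (M N N' b a : ℕ) : Prop :=
  (a ∈ G.T ∧ b ∈ T' ∧ φ b = a) ∨ (a ∈ G.V \ G.T ∧ ∃ i, N ≤ i ∧ i < N' ∧ b = nt M a i)

theorem Rel.mono {G : Form} {φ : ℕ → ℕ} {T' : Finset ℕ} {M N N' N₁ N₁' b a : ℕ}
    (h1 : N₁ ≤ N) (h2 : N' ≤ N₁') (h : Rel G φ T' M N N' b a) : Rel G φ T' M N₁ N₁' b a := by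
  rcases h with h | ⟨h, i, h3, h4, h5⟩
  · exact Or.inl h
  · exact Or.inr ⟨h, i, by omega, by omega, h5⟩

/-- the productions `Q` are copies of productions of `G`, with indices in `[N, N')`, at most one
production for each left-hand side -/
structure Good (G : Form) (φ : ℕ → ℕ) (T' : Finset ℕ) (M N N' : ℕ) (Q : Finset (ℕ × List ℕ)) :
    Prop where
  le : N ≤ N'
  proj : ∀ q ∈ Q, ∃ p ∈ G.P, (∃ i, N ≤ i ∧ i < N' ∧ q.1 = nt M p.1 i) ∧
    List.Forall₂ (Rel G φ T' M N N') q.2 p.2
  func : ∀ q ∈ Q, ∀ q' ∈ Q, q.1 = q'.1 → q = q'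

theorem Good.union {G : Form} {φ : ℕ → ℕ} {T' : Finset ℕ} {M N N' N'' : ℕ}
    {Q Q' : Finset (ℕ × List ℕ)} (h : Good G φ T' M N N' Q) (h' : Good G φ T' M N' N'' Q') :
    Good G φ T' M N N'' (Q ∪ Q') := by
  refine ⟨h.le.trans h'.le, ?_, ?_⟩
  · intro q hq
    rcases Finset.mem_union.1 hq with hq | hq
    · obtain ⟨p, hp, ⟨i, h1, h2, h3⟩, h4⟩ := h.proj q hq
      have := h'.le
      exact ⟨p, hp, ⟨i, h1, by omega, h3⟩, h4.imp fun _ _ hr => hr.mono le_rfl h'.le⟩
    · obtain ⟨p, hp, ⟨i, h1, h2, h3⟩, h4⟩ := h'.proj q hq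
      have := h.le
      exact ⟨p, hp, ⟨i, by omega, h2, h3⟩, h4.imp fun _ _ hr => hr.mono h.le le_rfl⟩
  · have key : ∀ q ∈ Q, ∀ q' ∈ Q', q.1 ≠ q'.1 := by
      intro q hq q' hq' hqq
      obtain ⟨p, _, ⟨i, _, h2, h3⟩, _⟩ := h.proj q hq
      obtain ⟨p', _, ⟨i', h1', _, h3'⟩, _⟩ := h'.proj q' hq'
      have := (nt_inj (h3.symm.trans (hqq.trans h3'))).2
      omega
    intro q hq q' hq' hqq
    rcases Finset.mem_union.1 hq with hq | hq <;> rcases Finset.mem_union.1 hq' with hq' | hq'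
    · exact h.func q hq q' hq' hqq
    · exact absurd hqq (key q hq q' hq')
    · exact absurd hqq.symm (key q' hq' q hq)
    · exact h'.func q hq q' hq' hqq

theorem lift {G : Form} {φ : ℕ → ℕ} {T' : Finset ℕ} {M : ℕ} {u w : List ℕ}
    (h : DY G.P G.T u w) : ∀ w' : List ℕ, w'.map φ = w → (∀ b ∈ w', b ∈ T') → ∀ N, ∃ N' Q u',
      Good G φ T' M N N' Q ∧ List.Forall₂ (Rel G φ T' M N N') u' u ∧ DY Q T' u' w' := by
  induction h with
  | nil =>
    intro w' hw' _ N
    obtain rfl : w' = [] := List.map_eq_nil_iff.1 hw'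
    exact ⟨N, ∅, [], ⟨le_rfl, by simp, by simp⟩, .nil, .nil⟩
  | @term a l w ha _ ih =>
    intro w' hw' hT N
    obtain ⟨b, w'', rfl, hb, hw''⟩ := List.map_eq_cons_iff.1 hw'
    obtain ⟨N', Q, u', h1, h2, h3⟩ := ih w'' hw'' (fun b hb => hT b (by simp [hb])) N
    exact ⟨N', Q, b :: u', h1, .cons (Or.inl ⟨ha, hT b (by simp), hb⟩) h2,
      .term (hT b (by simp)) h3⟩
  | @nt p l w1 w2 hp _ _ ih1 ih2 =>
    intro w' hw' hT N
    obtain ⟨w1', w2', rfl, hw1, hw2⟩ := List.map_eq_append_iff.1 hw'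
    obtain ⟨N1, Q1, u1, h1, h2, h3⟩ := ih1 w1' hw1 (fun b hb => hT b (by simp [hb])) (N + 1)
    obtain ⟨N2, Q2, u2, h4, h5, h6⟩ := ih2 w2' hw2 (fun b hb => hT b (by simp [hb])) N1
    have hle1 := h1.le
    have hle2 := h4.le
    have h0 : Good G φ T' M N N1 (insert (nt M p.1 N, u1) Q1) := by
      refine ⟨by omega, ?_, ?_⟩
      · intro q hq
        rcases Finset.mem_insert.1 hq with rfl | hq
        · exact ⟨p, hp, ⟨N, le_rfl, by omega, rfl⟩,
            h2.imp fun _ _ hr => hr.mono (by omega) le_rfl⟩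
        · obtain ⟨p', hp', ⟨i, h7, h8, h9⟩, h10⟩ := h1.proj q hq
          exact ⟨p', hp', ⟨i, by omega, h8, h9⟩,
            h10.imp fun _ _ hr => hr.mono (by omega) le_rfl⟩
      · have key : ∀ q ∈ Q1, q.1 ≠ nt M p.1 N := by
          intro q hq hqq
          obtain ⟨p', _, ⟨i, h7, _, h9⟩, _⟩ := h1.proj q hq
          have := (nt_inj (h9.symm.trans hqq)).2
          omega
        intro q hq q' hq' hqq
        rcases Finset.mem_insert.1 hq with rfl | hq <;>
          rcases Finset.mem_insert.1 hq' with rfl | hq'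
        · rfl
        · exact absurd hqq.symm (key q' hq')
        · exact absurd hqq (key q hq)
        · exact h1.func q hq q' hq' hqq
    refine ⟨N2, insert (nt M p.1 N, u1) Q1 ∪ Q2, nt M p.1 N :: u2, h0.union h4, ?_, ?_⟩
    · refine .cons (Or.inr ⟨(G.hP p hp).1, N, le_rfl, by omega, rfl⟩) ?_
      exact h5.imp fun _ _ hr => hr.mono (by omega) le_rfl
    · refine DY.nt (p := (nt M p.1 N, u1)) (by simp) (h3.mono ?_) (h6.mono ?_)
      · intro q hq
        simp [hq]
      · intro q hq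
        simp [hq]

theorem lift_all {G : Form} {φ : ℕ → ℕ} {T' : Finset ℕ} {M : ℕ} (L : List (List ℕ))
    (hL : ∀ w ∈ L, w.map φ ∈ G.lang) (hT : ∀ w ∈ L, ∀ b ∈ w, b ∈ T') : ∀ N, ∃ N' Q,
      ∃ X : List (List ℕ), Good G φ T' M N N' Q ∧
      List.Forall₂ (fun x w => (∃ p ∈ G.P, p.1 = G.S ∧
        List.Forall₂ (Rel G φ T' M N N') x p.2) ∧ DY Q T' x w) X L := by
  induction L with
  | nil =>
    intro N
    exact ⟨N, ∅, [], ⟨le_rfl, by simp, by simp⟩, .nil⟩
  | cons w L ih =>
    intro N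
    have h1 := mem_lang.1 (hL w (by simp))
    obtain ⟨p, hp, hpS, h2⟩ : ∃ p ∈ G.P, p.1 = G.S ∧ DY G.P G.T p.2 (w.map φ) := by
      generalize hu : [G.S] = u at h1
      generalize w.map φ = v at h1 ⊢
      cases h1 with
      | nil => simp at hu
      | term ha _ =>
        simp only [List.cons.injEq] at hu
        rw [← hu.1] at ha
        exact absurd ha (Finset.mem_sdiff.1 G.hS).2
      | @nt p l w1 w2 hp h1 h2 =>
        simp only [List.cons.injEq] at hu
        obtain ⟨hu1, rfl⟩ := hu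
        cases h2
        exact ⟨p, hp, hu1.symm, by simpa using h1⟩
    obtain ⟨N1, Q1, x, h3, h4, h5⟩ := lift (M := M) h2 w rfl (hT w (by simp)) N
    obtain ⟨N2, Q2, X, h6, h7⟩ := ih (fun w hw => hL w (by simp [hw]))
      (fun w hw => hT w (by simp [hw])) N1
    refine ⟨N2, Q1 ∪ Q2, x :: X, h3.union h6, .cons ⟨⟨p, hp, hpS, ?_⟩, ?_⟩ ?_⟩
    · exact h4.imp fun _ _ hr => hr.mono le_rfl h6.le
    · exact h5.mono Finset.subset_union_left
    · refine h7.imp fun x w h => ⟨?_, h.2.mono Finset.subset_union_right⟩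
      obtain ⟨p, hp, hpS, h8⟩ := h.1
      exact ⟨p, hp, hpS, h8.imp fun _ _ hr => hr.mono h3.le le_rfl⟩

theorem DY.unique {P : Finset (ℕ × List ℕ)} {T : Finset ℕ} {K : ℕ → Prop}
    (hK : ∀ p ∈ P, K p.1 → (∀ b ∈ p.2, K b) ∧ p.1 ∉ T ∧ ∀ q ∈ P, q.1 = p.1 → q = p)
    {u w : List ℕ} (h : DY P T u w) : (∀ b ∈ u, K b) → ∀ x, DY P T u x → x = w := by
  induction h with
  | nil =>
    intro _ x hx
    cases hx
    rfl
  | @term a l w ha _ ih =>
    intro hu x hx
    generalize hv : a :: l = v at hx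
    cases hx with
    | nil => simp at hv
    | term hb hx =>
      simp only [List.cons.injEq] at hv
      obtain ⟨rfl, rfl⟩ := hv
      rw [ih (fun b hb => hu b (by simp [hb])) _ hx]
    | nt hp _ _ =>
      simp only [List.cons.injEq] at hv
      obtain ⟨rfl, rfl⟩ := hv
      exact absurd ha (hK _ hp (hu _ (by simp))).2.1
  | @nt p l w1 w2 hp _ _ ih1 ih2 =>
    intro hu x hx
    have hKp := hK _ hp (hu _ (by simp))
    generalize hv : p.1 :: l = v at hx
    cases hx with
    | nil => simp at hv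
    | term hb hx =>
      simp only [List.cons.injEq] at hv
      rw [← hv.1] at hb
      exact absurd hb hKp.2.1
    | nt hq h3 h4 =>
      simp only [List.cons.injEq] at hv
      obtain ⟨hv1, rfl⟩ := hv
      obtain rfl := hKp.2.2 _ hq hv1.symm
      rw [ih1 hKp.1 _ h3, ih2 (fun b hb => hu b (by simp [hb])) _ h4]

theorem complete (G : Form) (L : Finset (List ℕ)) (hne : [] ∉ L)
    (h : Hom (L : Set (List ℕ)) (G.lang \ {[]})) : (L : Set (List ℕ)) ∈ family G := by
  classical
  obtain ⟨φ, hφ⟩ := h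
  set T' := letters L with hT'
  set M := T'.sup id + 1 with hM
  have hMT : ∀ b ∈ T', b < M := fun b hb => Nat.lt_succ_of_le (Finset.le_sup (f := id) hb)
  have hnt : ∀ a i, nt M a i ∉ T' := fun a i hb => by
    have := hMT _ hb
    unfold nt at this
    omega
  obtain ⟨N, Q, X, hgood, hX⟩ := lift_all (G := G) (φ := φ) (T' := T') (M := M) L.toList
    (fun w hw => (hφ w (by simpa using hw)).1)
    (fun w hw b hb => mem_letters.2 ⟨w, by simpa using hw, hb⟩) 1
  have hN := hgood.le
  let μ : ℕ → Finset ℕ := fun a => if a ∈ G.T then T'.filter (fun b => φ b = a) else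
    (Finset.range N).image (nt M a)
  have hμT : ∀ a ∈ G.T, μ a = T'.filter (fun b => φ b = a) := fun a ha => by simp [μ, ha]
  have hμN : ∀ a ∈ G.V \ G.T, μ a = (Finset.range N).image (nt M a) := fun a ha => by
    simp [μ, (Finset.mem_sdiff.1 ha).2]
  have hRμ : ∀ b a, Rel G φ T' M 1 N b a → b ∈ μ a := by
    rintro b a (⟨h1, h2, h3⟩ | ⟨h1, i, h2, h3, rfl⟩)
    · rw [hμT a h1]
      exact Finset.mem_filter.2 ⟨h2, h3⟩
    · rw [hμN a h1]
      exact Finset.mem_image_of_mem _ (Finset.mem_range.2 h3)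
  let V' : Finset ℕ := T' ∪ (G.V \ G.T).biUnion fun A => (Finset.range N).image (nt M A)
  have hV1 : ∀ A ∈ G.V \ G.T, ∀ i < N, nt M A i ∈ V' \ T' := by
    intro A hA i hi
    refine Finset.mem_sdiff.2 ⟨Finset.mem_union_right _ ?_, hnt _ _⟩
    exact Finset.mem_biUnion.2 ⟨A, hA, Finset.mem_image_of_mem _ (Finset.mem_range.2 hi)⟩
  have hV2 : ∀ b a, Rel G φ T' M 1 N b a → b ∈ V' := by
    rintro b a (⟨h1, h2, h3⟩ | ⟨h1, i, h2, h3, rfl⟩)
    · exact Finset.mem_union_left _ h2
    · exact (Finset.mem_sdiff.1 (hV1 a h1 i h3)).1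
  have hall : ∀ {R : ℕ → ℕ → Prop} {x y : List ℕ}, List.Forall₂ R x y → ∀ b ∈ x, ∃ a, R b a := by
    intro R x y hxy
    induction hxy with
    | nil => simp
    | cons h1 _ ih =>
      intro b hb
      rcases List.mem_cons.1 hb with rfl | hb
      · exact ⟨_, h1⟩
      · exact ih b hb
  have hX1 : ∀ x ∈ X, ∃ w ∈ L, (∃ p ∈ G.P, p.1 = G.S ∧
        List.Forall₂ (Rel G φ T' M 1 N) x p.2) ∧ DY Q T' x w := by
    have : ∀ {A : List (List ℕ)} {B : List (List ℕ)} {R : List ℕ → List ℕ → Prop},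
        List.Forall₂ R A B → ∀ x ∈ A, ∃ w ∈ B, R x w := by
      intro A B R hAB
      induction hAB with
      | nil => simp
      | @cons a b _ _ h1 _ ih =>
        intro x hx
        rcases List.mem_cons.1 hx with rfl | hx
        · exact ⟨b, by simp, h1⟩
        · obtain ⟨w, hw, h2⟩ := ih x hx
          exact ⟨w, by simp [hw], h2⟩
    intro x hx
    obtain ⟨w, hw, h2⟩ := this hX x hx
    exact ⟨w, by simpa using hw, h2⟩
  have hX2 : ∀ w ∈ L, ∃ x ∈ X, DY Q T' x w := by
    have : ∀ {A : List (List ℕ)} {B : List (List ℕ)} {R : List ℕ → List ℕ → Prop},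
        List.Forall₂ R A B → ∀ w ∈ B, ∃ x ∈ A, R x w := by
      intro A B R hAB
      induction hAB with
      | nil => simp
      | @cons a b _ _ h1 _ ih =>
        intro x hx
        rcases List.mem_cons.1 hx with rfl | hx
        · exact ⟨a, by simp, h1⟩
        · obtain ⟨w, hw, h2⟩ := ih x hx
          exact ⟨w, by simp [hw], h2⟩
    intro w hw
    obtain ⟨x, hx, h2⟩ := this hX w (by simpa using hw)
    exact ⟨x, hx, h2.2⟩
  let P' : Finset (ℕ × List ℕ) := X.toFinset.image (fun x => (nt M G.S 0, x)) ∪ Q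
  have hP' : ∀ p, p ∈ P' ↔ (∃ x ∈ X, p = (nt M G.S 0, x)) ∨ p ∈ Q := by
    intro p
    simp only [P', Finset.mem_union, Finset.mem_image, List.mem_toFinset]
    constructor
    · rintro (⟨x, hx, rfl⟩ | h)
      · exact Or.inl ⟨x, hx, rfl⟩
      · exact Or.inr h
    · rintro (⟨x, hx, rfl⟩ | h)
      · exact Or.inl ⟨x, hx, rfl⟩
      · exact Or.inr h
  let G' : Form :=
    { V := V'
      T := T'
      P := P'
      S := nt M G.S 0
      hT := Finset.subset_union_left
      hS := hV1 G.S G.hS 0 (by omega)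
      hP := by
        intro p hp
        rcases (hP' p).1 hp with ⟨x, hx, rfl⟩ | hp
        · refine ⟨hV1 G.S G.hS 0 (by omega), ?_⟩
          obtain ⟨w, _, ⟨p, _, _, h3⟩, _⟩ := hX1 x hx
          intro b hb
          obtain ⟨a, ha⟩ := hall h3 b hb
          exact hV2 b a ha
        · obtain ⟨p', hp', ⟨i, _, h2, h3⟩, h4⟩ := hgood.proj p hp
          refine ⟨?_, ?_⟩
          · rw [h3]
            exact hV1 _ (G.hP p' hp').1 i h2
          · intro b hb
            obtain ⟨a, ha⟩ := hall h4 b hb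
            exact hV2 b a ha }
  refine ⟨G', μ, ⟨?_, ?_, ?_, ?_, ?_⟩, ?_⟩
  · intro a ha b hb hab
    rw [Finset.disjoint_left]
    intro x hx1 hx2
    by_cases haT : a ∈ G.T <;> by_cases hbT : b ∈ G.T
    · rw [hμT a haT] at hx1
      rw [hμT b hbT] at hx2
      exact hab ((Finset.mem_filter.1 hx1).2.symm.trans (Finset.mem_filter.1 hx2).2)
    · rw [hμT a haT] at hx1
      rw [hμN b (Finset.mem_sdiff.2 ⟨hb, hbT⟩)] at hx2
      obtain ⟨i, _, rfl⟩ := Finset.mem_image.1 hx2
      exact hnt _ _ (Finset.mem_filter.1 hx1).1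
    · rw [hμT b hbT] at hx2
      rw [hμN a (Finset.mem_sdiff.2 ⟨ha, haT⟩)] at hx1
      obtain ⟨i, _, rfl⟩ := Finset.mem_image.1 hx1
      exact hnt _ _ (Finset.mem_filter.1 hx2).1
    · rw [hμN a (Finset.mem_sdiff.2 ⟨ha, haT⟩)] at hx1
      rw [hμN b (Finset.mem_sdiff.2 ⟨hb, hbT⟩)] at hx2
      obtain ⟨i, _, rfl⟩ := Finset.mem_image.1 hx1
      obtain ⟨j, _, hj⟩ := Finset.mem_image.1 hx2
      exact hab (nt_inj hj).1.symm
  · intro A hA x hx
    rw [hμN A hA] at hx
    obtain ⟨i, hi, rfl⟩ := Finset.mem_image.1 hx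
    exact hV1 A hA i (Finset.mem_range.1 hi)
  · intro a ha x hx
    rw [hμT a ha] at hx
    exact (Finset.mem_filter.1 hx).1
  · intro p hp
    rcases (hP' p).1 hp with ⟨x, hx, rfl⟩ | hp
    · obtain ⟨w, _, ⟨p, hpP, hpS, h3⟩, _⟩ := hX1 x hx
      refine ⟨p, hpP, ?_, h3.imp hRμ⟩
      rw [hpS, hμN G.S G.hS]
      exact Finset.mem_image_of_mem _ (Finset.mem_range.2 (by omega))
    · obtain ⟨p', hp', ⟨i, _, h2, h3⟩, h4⟩ := hgood.proj p hp
      refine ⟨p', hp', ?_, h4.imp hRμ⟩
      rw [h3, hμN _ (G.hP p' hp').1]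
      exact Finset.mem_image_of_mem _ (Finset.mem_range.2 h2)
  · change nt M G.S 0 ∈ μ G.S
    rw [hμN G.S G.hS]
    exact Finset.mem_image_of_mem _ (Finset.mem_range.2 (by omega))
  · ext v
    constructor
    · intro hv
      have hv' : v ∈ L := hv
      refine ⟨mem_lang.2 ?_, fun h0 => hne ?_⟩
      · obtain ⟨x, hx, h1⟩ := hX2 v hv'
        have h2 := DY.nt (P := P') (T := T') (p := (nt M G.S 0, x)) ((hP' _).2 (Or.inl ⟨x, hx, rfl⟩))
          (h1.mono Finset.subset_union_right) .nil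
        rw [List.append_nil] at h2
        exact h2
      · rw [Set.mem_singleton_iff.1 h0] at hv'
        exact hv'
    · rintro ⟨hv, _⟩
      have h1 : DY P' T' [nt M G.S 0] v := mem_lang.1 hv
      let K : ℕ → Prop := fun b => b ∈ T' ∨ ∃ a i, 1 ≤ i ∧ b = nt M a i
      have hKR : ∀ b a, Rel G φ T' M 1 N b a → K b := by
        rintro b a (⟨h1, h2, h3⟩ | ⟨h1, i, h2, h3, rfl⟩)
        · exact Or.inl h2
        · exact Or.inr ⟨a, i, h2, rfl⟩
      have hKP : ∀ p ∈ P', K p.1 → p ∈ Q := by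
        intro p hp hK
        rcases (hP' p).1 hp with ⟨x, hx, rfl⟩ | hp
        · rcases hK with hK | ⟨a, i, hi, hK⟩
          · exact absurd hK (hnt _ _)
          · have := (nt_inj hK).2
            omega
        · exact hp
      have h0 : ∀ p ∈ Q, p.1 ≠ nt M G.S 0 := by
        intro p hp hp0
        obtain ⟨p', _, ⟨i, h2, _, h3⟩, _⟩ := hgood.proj p hp
        have := (nt_inj (h3.symm.trans hp0)).2
        omega
      generalize hu : [nt M G.S 0] = u at h1
      cases h1 with
      | nil => simp at hu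
      | term ha _ =>
        simp only [List.cons.injEq] at hu
        rw [← hu.1] at ha
        exact absurd ha (hnt _ _)
      | @nt p l w1 w2 hp h1 h2 =>
        simp only [List.cons.injEq] at hu
        obtain ⟨hu1, rfl⟩ := hu
        cases h2
        rw [List.append_nil] at *
        rcases (hP' p).1 hp with ⟨x, hx, rfl⟩ | hpQ
        · obtain ⟨w, hw, ⟨p, _, _, h3⟩, h4⟩ := hX1 x hx
          have h5 : w1 = w := by
            refine DY.unique (K := K) ?_ (h4.mono (P' := P') Finset.subset_union_right) ?_ w1 h1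
            · intro q hq hqK
              have hqQ := hKP q hq hqK
              obtain ⟨p', _, ⟨i, _, _, h6⟩, h7⟩ := hgood.proj q hqQ
              refine ⟨?_, ?_, ?_⟩
              · intro b hb
                obtain ⟨a, ha⟩ := hall h7 b hb
                exact hKR b a ha
              · rw [h6]
                exact hnt _ _
              · intro q' hq' hqq
                exact hgood.func q' (hKP q' hq' (by rw [hqq]; exact hqK)) q hqQ hqq
            · intro b hb
              obtain ⟨a, ha⟩ := hall h3 b hb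
              exact hKR b a ha
          rw [h5]
          exact hw
        · exact absurd hu1.symm (h0 p hpQ)

/-! ### Inclusion of families -/

theorem hom_of_sub {G G' : Form} (h : family G ⊆ family G') :
    Hom (G.lang \ {[]}) (G'.lang \ {[]}) :=
  hom_of_mem (h (self_mem G))

theorem sub_of_hom {G G' : Form} (hfin : (G.lang \ {[]}).Finite)
    (h : Hom (G.lang \ {[]}) (G'.lang \ {[]})) : family G ⊆ family G' := by
  intro L hL
  have hG : G.lang.Finite := by
    refine (hfin.union (Set.finite_singleton [])).subset ?_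
    intro w hw
    by_cases h0 : w = []
    · exact Or.inr h0
    · exact Or.inl ⟨hw, h0⟩
  have h1 : L.Finite := finite_of_mem hL hG
  have h2 : [] ∉ h1.toFinset := by
    obtain ⟨G'', μ, _, rfl⟩ := hL
    simp
  have h3 := complete G' h1.toFinset h2 (by
    rw [h1.coe_toFinset]
    exact (hom_of_mem hL).trans h)
  rwa [h1.coe_toFinset] at h3

/-! ### Forms without nonterminals besides the start symbol -/

theorem lang_flat {G : Form} {L : Finset (List ℕ)} (hP : ∀ p, p ∈ G.P ↔ ∃ w ∈ L, p = (G.S, w))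
    (hT : ∀ w ∈ L, ∀ b ∈ w, b ∈ G.T) : G.lang = (L : Set (List ℕ)) := by
  have h0 : ∀ {u v : List ℕ}, DY G.P G.T u v → (∀ b ∈ u, b ∈ G.T) → v = u := by
    intro u v h
    induction h with
    | nil => intro _; rfl
    | term ha _ ih =>
      intro hu
      rw [ih fun b hb => hu b (by simp [hb])]
    | nt hp _ _ _ _ =>
      intro hu
      exact absurd (hu _ (by simp)) (Finset.mem_sdiff.1 (G.hP _ hp).1).2
  ext v
  rw [mem_lang]
  constructor
  · intro h1
    generalize hu : [G.S] = u at h1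
    cases h1 with
    | nil => simp at hu
    | term ha _ =>
      simp only [List.cons.injEq] at hu
      rw [← hu.1] at ha
      exact absurd ha (Finset.mem_sdiff.1 G.hS).2
    | @nt p l w1 w2 hp h1 h2 =>
      simp only [List.cons.injEq] at hu
      obtain ⟨hu1, rfl⟩ := hu
      cases h2
      obtain ⟨w, hw, rfl⟩ := (hP p).1 hp
      rw [List.append_nil, h0 h1 (hT w hw)]
      exact hw
  · intro hv
    have h1 := DY.nt (P := G.P) (T := G.T) (p := (G.S, v)) ((hP _).2 ⟨v, hv, rfl⟩)
      (DY.of_terminals (hT v hv)) .nil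
    rwa [List.append_nil] at h1

/-- the form with the productions `S → w` for `w ∈ L` -/
def simple (L : Finset (List ℕ)) : Form :=
  { V := insert ((letters L).sup id + 1) (letters L)
    T := letters L
    P := L.image fun w => ((letters L).sup id + 1, w)
    S := (letters L).sup id + 1
    hT := Finset.subset_insert _ _
    hS := by
      refine Finset.mem_sdiff.2 ⟨Finset.mem_insert_self _ _, fun h => ?_⟩
      have := Finset.le_sup (f := id) h
      simp only [id] at this
      omega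
    hP := by
      intro p hp
      obtain ⟨w, hw, rfl⟩ := Finset.mem_image.1 hp
      refine ⟨Finset.mem_sdiff.2 ⟨Finset.mem_insert_self _ _, fun h => ?_⟩, ?_⟩
      · have := Finset.le_sup (f := id) h
        simp only [id] at this
        omega
      · intro b hb
        exact Finset.mem_insert_of_mem (mem_letters.2 ⟨w, hw, hb⟩) }

theorem simple_lang (L : Finset (List ℕ)) : (simple L).lang = (L : Set (List ℕ)) := by
  apply lang_flat
  · intro p
    simp only [simple, Finset.mem_image]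
    constructor
    · rintro ⟨w, hw, rfl⟩
      exact ⟨w, hw, rfl⟩
    · rintro ⟨w, hw, rfl⟩
      exact ⟨w, hw, rfl⟩
  · intro w hw b hb
    exact mem_letters.2 ⟨w, hw, hb⟩

/-- the form with the productions `S → ab`, `S → ba` (`a = 0`, `b = 1`, `S = 2`) -/
def F1 : Form :=
  { V := {0, 1, 2}
    T := {0, 1}
    P := {(2, [0, 1]), (2, [1, 0])}
    S := 2
    hT := by decide
    hS := by decide
    hP := by decide }

/-- the form with the production `S → aa` (`a = 0`, `S = 1`) -/
def F2 : Form :=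
  { V := {0, 1}
    T := {0}
    P := {(1, [0, 0])}
    S := 1
    hT := by decide
    hS := by decide
    hP := by decide }

theorem F1_lang : F1.lang = {[0, 1], [1, 0]} := by
  have h := lang_flat (G := F1) (L := {[0, 1], [1, 0]}) (by
    intro p
    simp [F1]) (by decide)
  rw [h]
  simp

theorem F2_lang : F2.lang = {[0, 0]} := by
  have h := lang_flat (G := F2) (L := {[0, 0]}) (by
    intro p
    simp [F2]) (by decide)
  rw [h]
  simp

theorem F1_lang' : F1.lang \ {[]} = {[0, 1], [1, 0]} := by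
  rw [F1_lang]
  ext w
  simp only [Set.mem_sdiff, Set.mem_insert_iff, Set.mem_singleton_iff]
  constructor
  · exact fun h => h.1
  · rintro (rfl | rfl) <;> simp

theorem F2_lang' : F2.lang \ {[]} = {[0, 0]} := by
  rw [F2_lang]
  ext w
  simp only [Set.mem_sdiff, Set.mem_singleton_iff]
  constructor
  · exact fun h => h.1
  · rintro rfl
    simp

/-- **Main theorem.** The pair of the families of `S → ab | ba` and of `S → aa` is dense; both
forms are finite. -/
theorem result : F1.lang.Finite ∧ F2.lang.Finite ∧ family F1 ⊂ family F2 ∧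
    Dense (family F1) (family F2) := by
  classical
  have hf1 : F1.lang.Finite := by
    rw [F1_lang]
    exact Set.toFinite _
  have hf2 : F2.lang.Finite := by
    rw [F2_lang]
    exact Set.toFinite _
  refine ⟨hf1, hf2, ⟨?_, ?_⟩, ?_⟩
  · refine sub_of_hom (hf1.subset Set.sdiff_subset) ?_
    rw [F1_lang', F2_lang']
    refine ⟨fun _ => 0, ?_⟩
    rintro w (rfl | rfl) <;> simp
  · intro h
    have h1 := hom_of_sub h
    rw [F1_lang', F2_lang'] at h1
    obtain ⟨φ, hφ⟩ := h1
    have h2 := hφ [0, 0] rfl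
    simp only [List.map_cons, List.map_nil, Set.mem_insert_iff, Set.mem_singleton_iff,
      List.cons.injEq, and_true] at h2
    omega
  · rintro _ _ ⟨G1, rfl⟩ ⟨G2, rfl⟩ h01 h12 h23
    have hlen : ∀ {G : Form}, family G ⊆ family F2 → (G.lang \ {[]}).Finite ∧
        ∀ w ∈ G.lang \ {[]}, w.length = 2 := by
      intro G hG
      have h := hG (self_mem G)
      refine ⟨finite_of_mem h hf2, ?_⟩
      obtain ⟨φ, hφ⟩ := hom_of_mem h
      intro w hw
      have h2 := hφ w hw
      rw [F2_lang'] at h2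
      have h3 := congrArg List.length (Set.mem_singleton_iff.1 h2)
      simpa using h3
    obtain ⟨hfin2, hlen2⟩ := hlen h23
    obtain ⟨hfin1, hlen1⟩ := hlen (h12.1.trans h23)
    obtain ⟨L3, hl, h13, h32, h31, h23'⟩ := density hfin1.toFinset hfin2.toFinset
      (fun w hw => hlen1 w (hfin1.mem_toFinset.1 hw))
      (fun w hw => hlen2 w (hfin2.mem_toFinset.1 hw))
      (by
        rw [hfin1.coe_toFinset, hfin2.coe_toFinset]
        exact hom_of_sub h12.1)
      (by
        rw [hfin1.coe_toFinset, hfin2.coe_toFinset]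
        exact fun h => h12.2 (sub_of_hom hfin2 h))
      (by
        rw [hfin1.coe_toFinset, ← F1_lang']
        exact hom_of_sub h01)
    rw [hfin1.coe_toFinset] at h13 h31
    rw [hfin2.coe_toFinset] at h32 h23'
    have h3 : (simple L3).lang \ {[]} = (L3 : Set (List ℕ)) := by
      rw [simple_lang]
      ext w
      simp only [Set.mem_sdiff, Set.mem_singleton_iff]
      refine ⟨fun h => h.1, fun h => ⟨h, ?_⟩⟩
      rintro rfl
      have := hl [] h
      simp at this
    refine ⟨family (simple L3), ⟨_, rfl⟩, ⟨?_, ?_⟩, ⟨?_, ?_⟩⟩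
    · exact sub_of_hom hfin1 (by rw [h3]; exact h13)
    · intro h
      have := hom_of_sub h
      rw [h3] at this
      exact h31 this
    · exact sub_of_hom (by rw [h3]; exact L3.finite_toSet) (by rw [h3]; exact h32)
    · intro h
      have := hom_of_sub h
      rw [h3] at this
      exact h23' this

end Pool.Agent.Results.MP_71ec98_lc.DensePair
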